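import Pool.Agent.Q28.MC.Main

/-!
# Independence of the Chow-Kunneth filtration of one variety: an exact criterion

`𝒱` is a class of smooth projective geometrically irreducible varieties over the field `k` closed
under products (for example all of them), `C` the Chow groups with rational coefficients (in the
form of their formal properties, `IsChowProj`) and `H` a Weil cohomology theory (`IsWeilProj`).

Let `X` be a variety such that no homologically trivial self-correspondence of degree zero acts
on `CH(X)` as a non-zero idempotent (for example such that they are nilpotent, as for
finite-dimensional motives), and `π` one Chow-Kunneth decomposition of `X`. Then the Chow-Kunneth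
filtration of `CH(X)` is independent of the decomposition if and only if the morphisms
`h^a(X) → h^b(X)`, `a < b`, between the summands given by `π` act as zero on `CH(X)`.

For all `X` the independence implies that these morphisms, and the phantom summands of the
`h^a(X)`, act as zero on `CH(X)`.
-/

open CategoryTheory AlgebraicGeometry

set_option autoImplicit false

universe u v w

namespace Pool.Agent.Results.MP_10f4af_ag.ActionCriterion

open Pool.Agent.H914 Pool.Agent.W492.BB Pool.Agent.TH133 Pool.Agent.Q28.MC Pool.Agent.W550.Corr

/-- The independence of the Chow-Kunneth filtration of one variety `X` and the action on `CH(X)` of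
the morphisms `h^a(X) → h^b(X)`, `a < b`, for one decomposition. -/
theorem result {k : Type u} [Field k] {𝒱 : VarClass k} (C : TheoryData.{u, v, 0} 𝒱 ℚ)
    [IsChowProj C] {K : Type w} [Field K] (H : WeilTheoryData.{u, v, w} C K) [IsWeilProj H] :
    (∀ X : 𝒱.Obj, NoIdempotentAction H X →
      ∀ π, IsCK H X π → (MurreC H X ↔ RaisingActsTrivially C π)) ∧
    (∀ X : 𝒱.Obj, NilpotentKernel H X → NoIdempotentAction H X) ∧
    (∀ X : 𝒱.Obj, MurreC H X → ∀ π, IsCK H X π →
      RaisingActsTrivially C π ∧ PhantomsActTrivially H π) :=
  ⟨fun _ hN _ h => murreC_iff hN h, fun _ hN => noIdempotentAction_of_nil hN,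
    fun _ hX _ h => ⟨raising_of_C hX h, phantoms_of_C hX h⟩⟩

end Pool.Agent.Results.MP_10f4af_ag.ActionCriterion
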