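import Pool.Agent.Q28.MC.Main

/-!
# Independence of the Chow-Kunneth filtration: one group on the squares suffices

`𝒱` is a class of smooth projective geometrically irreducible varieties over the field `k` closed
under products (for example all of them), `C` the Chow groups with rational coefficients (in the
form of their formal properties, `IsChowProj`) and `H` a Weil cohomology theory (`IsWeilProj`).

If `X` has a Chow-Kunneth decomposition and the one group `F^0 CH^(dim X)(X × X)` is independent of
the decomposition of `X × X`, then the independence holds for `X` in the universal form.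
Therefore, for a class of varieties with Chow-Kunneth decompositions, closed under `X ↦ X × X`, the
independence for all `X` and all `F^n CH^i(X)` is equivalent to the independence of
`F^0 CH^(dim X)(X × X)` for all `X`, to the universal form, and to the condition that each `X` has
one decomposition without non-zero morphisms `h^a(X) → h^b(X)`, `a < b`, and no phantom summand.
-/

open CategoryTheory AlgebraicGeometry

set_option autoImplicit false

universe u v w

namespace Pool.Agent.Results.MP_10f4af_ag.OneGroupOnSquares

open Pool.Agent.H914 Pool.Agent.W492.BB Pool.Agent.TH133 Pool.Agent.Q28.MC Pool.Agent.W550.Corr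

/-- The independence of the Chow-Kunneth filtrations for a class of varieties closed under
`X ↦ X × X` is a statement on the groups `F^0 CH^(dim X)(X × X)`. -/
theorem result {k : Type u} [Field k] {𝒱 : VarClass k} (C : TheoryData.{u, v, 0} 𝒱 ℚ)
    [IsChowProj C] {K : Type w} [Field K] (H : WeilTheoryData.{u, v, w} C K) [IsWeilProj H] :
    (∀ X : 𝒱.Obj, (∃ π, IsCK H X π) → MurreCAt H (X.prod X) X.dim 0 → UniversalC H X) ∧
    (∀ F : 𝒱.Obj → Prop, (∀ X, F X → F (X.prod X)) → (∀ X, F X → ∃ π, IsCK H X π) →
      List.TFAE [∀ X, F X → MurreC H X,
        ∀ X, F X → MurreCAt H (X.prod X) X.dim 0,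
        ∀ X, F X → UniversalC H X,
        ∀ X, F X → ∃ π, IsCK H X π ∧ NeverRaises C π ∧ NoPhantoms H X]) := by
  refine ⟨?_, ?_⟩
  · rintro X ⟨π, h⟩ hX
    exact universal_of_C0At h hX
  · intro F hF hCK
    tfae_have 1 → 2 := fun h X hX π π' hπ hπ' => h _ (hF X hX) π π' hπ hπ' X.dim 0
    tfae_have 2 → 3 := by
      intro h X hX
      obtain ⟨π, hπ⟩ := hCK X hX
      exact universal_of_C0At hπ (h X hX)
    tfae_have 3 → 1 := fun h X hX => murreC_of_universal (h X hX)
    tfae_have 3 → 4 := by
      intro h X hX
      obtain ⟨π, hπ⟩ := hCK X hX
      exact ⟨π, hπ, (universalC_iff hπ).1 (h X hX)⟩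
    tfae_have 4 → 3 := by
      intro h X hX
      obtain ⟨π, hπ, h1⟩ := h X hX
      exact (universalC_iff hπ).2 h1
    tfae_finish

end Pool.Agent.Results.MP_10f4af_ag.OneGroupOnSquares
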