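import Pool.Agent.Q28.MC.Main

/-!
# Universal independence of the Chow-Kunneth filtration: an exact criterion

`𝒱` is a class of smooth projective geometrically irreducible varieties over the field `k` closed
under products (for example all of them), `C` the Chow groups with rational coefficients (in the
form of their formal properties, `IsChowProj`) and `H` a Weil cohomology theory (`IsWeilProj`).

The universal form of the independence (the subobjects `h^0(X) ⊕ ⋯ ⊕ h^(n-1)(X)` of the motive
of `X` do not depend on the decomposition) holds if and only if, for one decomposition `π`, there are
no non-zero morphisms `h^a(X) → h^b(X)`, `a < b`, and the motive of `X` has no phantom summand.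
Then the filtrations on `CH(X)` are independent of the decomposition, and all decompositions are
conjugate by unipotent correspondences strictly lowering the weights.
-/

open CategoryTheory AlgebraicGeometry

set_option autoImplicit false

universe u v w

namespace Pool.Agent.Results.MP_10f4af_ag.UniversalIndependence

open Pool.Agent.H914 Pool.Agent.W492.BB Pool.Agent.TH133 Pool.Agent.Q28.MC Pool.Agent.W550.Corr

/-- The universal form of the independence of the Chow-Kunneth filtration: exact criterion with one
decomposition, and the conjugacy of all decompositions. -/
theorem result {k : Type u} [Field k] {𝒱 : VarClass k} (C : TheoryData.{u, v, 0} 𝒱 ℚ)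
    [IsChowProj C] {K : Type w} [Field K] (H : WeilTheoryData.{u, v, w} C K) [IsWeilProj H]
    (X : 𝒱.Obj) :
    (∀ π : ℕ → C.A (X.prod X), IsCK H X π →
      (UniversalC H X ↔ NeverRaises C π ∧ NoPhantoms H X)) ∧
    (UniversalC H X → MurreC H X ∧ UnipotentlyConjugate H X) ∧
    (NilpotentKernel H X → NoPhantoms H X) :=
  ⟨fun _ h => universalC_iff h, fun hU => ⟨murreC_of_universal hU, conjugate hU⟩,
    fun hN => noPhantoms_of_nil hN⟩

end Pool.Agent.Results.MP_10f4af_ag.UniversalIndependence
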