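import Mathlib
import Pool.Agent.Q58.Scal.BBDefs
import Pool.Agent.Q58.Scal.Steps
import Pool.Agent.Q58.Scal.Murre
import Pool.Agent.Q58.Scal.CK

/-!
# Murre's conjectures for zero-cycles on products of curves and scalar decompositions

Let `X = ∏_t C_t^{n_t}` be a product of `d` smooth proper integral curves over an algebraically
closed field `k` (for instance `ℂ`).  We consider the Chow-Künneth decompositions
`π^0, ..., π^{2d}` of `X` whose members are linear combinations of graphs of scalar endomorphisms
of `X` (`ScalarMor`).  They exist, and all of them induce the same filtration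
`F^ν CH_0(X)_ℚ = (π^{2d-ν} + ... + π^0)_* CH_0(X)_ℚ` of the Chow group of zero-cycles: `F^ν`
consists of the classes killed by all scalar morphisms to products of less than `ν` of the curves.
Moreover `F^0` is everything, `F^1` consists of the classes of degree zero, `F^2` is the kernel
of the Albanese map, and `F^{d+1} = 0`.
-/

namespace Pool.Agent.Results.MP_10f4af_ag.ZeroCyclesOnProducts

open AlgebraicGeometry CategoryTheory Limits Q58.Chow

universe u

theorem result {k : Type u} [Field k] [IsAlgClosed k] {T : Type} [Fintype T] [DecidableEq T]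
    (C : T → Sch k) [∀ t, IsCurve (C t)] (g : T → ℕ) (hg : ∀ t, genus (C t) = g t)
    (n : T → ℕ) (d : ℕ) (hd : ∑ t, n t = d) :
    (Nonempty (Pt (powX C n)) → HasDecomposition C g n d) ∧ AllInduce g d (stdFil C n) ∧
      HasMurreSteps d (stdFil C n) := by
  refine ⟨?_, fun p hp ν => murreFil_eq hg hp ν, filCH_zero, fun z => mem_filCH_one z,
    fun z => mem_filCH_two z, ?_⟩
  · rintro ⟨x⟩
    exact ⟨_, exists_decomposition g (fun t j => x ≫ projX C (fun t => Fin (n t)) t j) hd⟩
  · rw [eq_bot_iff]
    intro z hz
    exact fil_large hd (Nat.lt_succ_self d) hz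

end Pool.Agent.Results.MP_10f4af_ag.ZeroCyclesOnProducts
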